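import Pool.Agent.Q258.Spider

/-!
# A CPET tree whose vertex of degree 4 is adjacent to only one leaf

The spider `S(15, 12, 2, 1)` has 31 vertices, maximum degree 4 and a connected partition of
every type.
-/

namespace Pool.Agent.Results.MP_6c5f5a_co.OneLeafCPETTree

open SimpleGraph Pool.Agent.Q258.ConnPart

theorem search : ∀ m : Fin 32, 1 ≤ m.val →
    good m.val 0 32 130 m.val (15 + 12 + 4 - m.val) [enc 15 12 2 1 0 0 0 0] = true := by
  decide +kernel

theorem isCPET : IsCPET (Sp 15 12) := by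
  refine ⟨Sp_isTree 15 12, ?_, ?_⟩
  · exact isMaxDegree_of (Sp 15 12) 4 (by decide +kernel) (15 : Fin 31) (by decide +kernel)
  · intro M hM hsum
    rw [Fintype.card_fin] at hsum
    refine Sp_conn 15 12 (enc 15 12 2 1 0 0 0 0) (by decide +kernel) (by decide +kernel) ?_
      M hM hsum
    intro m h1 h2
    exact search ⟨m, by omega⟩ h1

theorem leaves : ∀ v : Fin (15 + 12 + 4), (Sp 15 12).degree v = 4 →
    ∀ w, (Sp 15 12).Adj v w → (Sp 15 12).degree w = 1 → w.val = 30 := by
  decide +kernel

/-- **Answer to Q1 (the statement is false).** There is a CPET tree in which every vertex of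
degree 4 is adjacent to at most one leaf. -/
theorem result : ∃ (n : ℕ) (T : SimpleGraph (Fin n)), IsCPET T ∧
    ∀ v, (T.neighborSet v).ncard = 4 → {w | T.Adj v w ∧ IsLeaf T w}.ncard ≤ 1 := by
  refine ⟨31, Sp 15 12, isCPET, ?_⟩
  intro v hv
  have hsub : {w | (Sp 15 12).Adj v w ∧ IsLeaf (Sp 15 12) w} ⊆
      {(30 : Fin (15 + 12 + 4))} := by
    rintro w ⟨hw, hl⟩
    rw [Set.mem_singleton_iff]
    apply Fin.ext
    unfold IsLeaf at hl
    rw [ncard_eq_degree] at hv hl
    exact leaves v hv w hw hl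
  exact (Set.ncard_le_ncard hsub (Set.toFinite _)).trans (by rw [Set.ncard_singleton])

end Pool.Agent.Results.MP_6c5f5a_co.OneLeafCPETTree
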